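import Mathlib

set_option autoImplicit false

/-!
# Gaps in the counts of synchronizing colorings: digraphs with two vertices

For every alphabet size `k ≥ 3` there are exactly `⌊k/2⌋ + 1` gaps for `(k, 2)`.
-/

open Nat

namespace Pool.Agent.Results.MP_4d0a8c_lc

/-- A digraph with vertex set `Fin n` and exactly `k` outgoing edges at each vertex; the head of
the `e`-th edge leaving `v` is `G v e` (loops and parallel edges allowed). -/
abbrev OutGraph (k n : ℕ) : Type := Fin n → Fin k → Fin n

/-- There is a walk of length `l` from `u` to `v`. -/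
def Walk {k n : ℕ} (G : OutGraph k n) : ℕ → Fin n → Fin n → Prop
  | 0, u, v => u = v
  | l + 1, u, v => ∃ e : Fin k, Walk G l (G u e) v

/-- Strongly connected, and the only common divisor of the lengths of all closed walks of
positive length (equivalently, of all cycles) is `1`. -/
def Primitive {k n : ℕ} (G : OutGraph k n) : Prop :=
  (∀ u v : Fin n, ∃ l : ℕ, Walk G l u v) ∧
    ∀ d : ℕ, (∀ (v : Fin n) (l : ℕ), 0 < l → Walk G l v v → d ∣ l) → d = 1

/-- A coloring: at each vertex a bijection from the `k` outgoing edges to the alphabet `Fin k`. -/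
abbrev Coloring (k n : ℕ) : Type := Fin n → Equiv.Perm (Fin k)

/-- The transition map: from `v` follow the edge that carries the letter `a`. -/
def step {k n : ℕ} (G : OutGraph k n) (C : Coloring k n) (v : Fin n) (a : Fin k) : Fin n :=
  G v ((C v).symm a)

/-- Some word sends all vertices to one vertex. -/
def Synchronizing {k n : ℕ} (G : OutGraph k n) (C : Coloring k n) : Prop :=
  ∃ (w : List (Fin k)) (p : Fin n), ∀ q : Fin n, w.foldl (step G C) q = p

/-- `s(G)`, the number of synchronizing colorings. -/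
noncomputable def syncCount {k n : ℕ} (G : OutGraph k n) : ℕ :=
  Nat.card {C : Coloring k n // Synchronizing G C}

/-- `A_{k,n}`, the set of all values of `s(G)`, `G` a primitive digraph with `n` vertices. -/
def valueSet (k n : ℕ) : Set ℕ :=
  {s | ∃ G : OutGraph k n, Primitive G ∧ syncCount G = s}

/-- A nonempty set of consecutive multiples of `k!` in the interval from `k!` to `(k!)^n` that
contains no element of `A_{k,n}`. -/
def FreeRun (k n : ℕ) (S : Set ℕ) : Prop :=
  ∃ a b : ℕ, a ≤ b ∧ S = {x | ∃ m : ℕ, a ≤ m ∧ m ≤ b ∧ x = m * k !} ∧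
    ∀ x ∈ S, k ! ≤ x ∧ x ≤ (k !) ^ n ∧ x ∉ valueSet k n

/-- A gap: a set as in `FreeRun` that is maximal for inclusion. -/
def IsGap (k n : ℕ) (S : Set ℕ) : Prop := Maximal (FreeRun k n) S

end Pool.Agent.Results.MP_4d0a8c_lc

namespace Pool.Agent.Results.MP_4d0a8c_lc.TwoStates

open Pool.Agent.Results.MP_4d0a8c_lc

/-! ### The purely combinatorial count of maximal runs -/

/-- The run of multiples of `K` strictly between `d i * K` and `d (i + 1) * K`. -/
def runSet (K : ℕ) (d : ℕ → ℕ) (i : ℕ) : Set ℕ :=
  {x | ∃ m : ℕ, d i + 1 ≤ m ∧ m ≤ d (i + 1) - 1 ∧ x = m * K}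

theorem gaps_count (K N h : ℕ) (hK : 0 < K) (d : ℕ → ℕ) (A : Set ℕ) (d0 : d 0 = 0)
    (dstep : ∀ i, i ≤ h → d i + 2 ≤ d (i + 1)) (dN : d (h + 1) = N)
    (hA : ∀ m, 1 ≤ m → m ≤ N → (m * K ∈ A ↔ ∃ i, 1 ≤ i ∧ i ≤ h + 1 ∧ m = d i)) :
    {S : Set ℕ | Maximal (fun S : Set ℕ => ∃ a b : ℕ, a ≤ b ∧
        S = {x | ∃ m : ℕ, a ≤ m ∧ m ≤ b ∧ x = m * K} ∧
        ∀ x ∈ S, K ≤ x ∧ x ≤ N * K ∧ x ∉ A) S}.ncard = h + 1 := by
  classical
  -- monotonicity
  have mono : ∀ i j, i ≤ j → j ≤ h + 1 → d i ≤ d j := by
    intro i j hij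
    induction j, hij using Nat.le_induction with
    | base => intro _; exact le_rfl
    | succ j hj ih =>
      intro hjh
      have := ih (by omega)
      have := dstep j (by omega)
      omega
  have smono : ∀ i j, i < j → j ≤ h + 1 → d i + 2 ≤ d j := by
    intro i j hij hj
    have h1 := dstep i (by omega)
    have h2 := mono (i + 1) j hij hj
    omega
  have mulmem : ∀ a b m : ℕ, (m * K ∈ {x | ∃ m : ℕ, a ≤ m ∧ m ≤ b ∧ x = m * K}) ↔
      (a ≤ m ∧ m ≤ b) := by
    intro a b m
    constructor
    · rintro ⟨m', h1, h2, h3⟩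
      have : m = m' := Nat.eq_of_mul_eq_mul_right hK h3
      subst this
      exact ⟨h1, h2⟩
    · rintro ⟨h1, h2⟩
      exact ⟨m, h1, h2, rfl⟩
  have runmem : ∀ i m : ℕ, (m * K ∈ runSet K d i) ↔ (d i + 1 ≤ m ∧ m ≤ d (i + 1) - 1) :=
    fun i m => mulmem _ _ m
  have notA : ∀ i, i ≤ h → ∀ m, d i < m → m < d (i + 1) → m * K ∉ A := by
    intro i hi m h1 h2 hmA
    have h3 : m ≤ N := by
      have := mono (i + 1) (h + 1) (by omega) le_rfl
      omega
    obtain ⟨j, hj1, hj2, hj3⟩ := (hA m (by omega) h3).1 hmA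
    rcases Nat.lt_or_ge j (i + 1) with hji | hji
    · have := mono j i (by omega) (by omega)
      omega
    · have := mono (i + 1) j hji hj2
      omega
  have free : ∀ i, i ≤ h → ∀ x ∈ runSet K d i, K ≤ x ∧ x ≤ N * K ∧ x ∉ A := by
    rintro i hi x ⟨m, h1, h2, rfl⟩
    have h3 := dstep i hi
    have h4 := mono (i + 1) (h + 1) (by omega) le_rfl
    refine ⟨?_, ?_, notA i hi m (by omega) (by omega)⟩
    · exact Nat.le_mul_of_pos_left K (by omega)
    · exact Nat.mul_le_mul_right K (by omega)
  -- every free run lies in one of the runs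
  have inrun : ∀ a b : ℕ, a ≤ b →
      (∀ x ∈ {x | ∃ m : ℕ, a ≤ m ∧ m ≤ b ∧ x = m * K}, K ≤ x ∧ x ≤ N * K ∧ x ∉ A) →
      ∃ i, i ≤ h ∧ d i < a ∧ b < d (i + 1) := by
    intro a b hab hfree
    have ha := hfree (a * K) ((mulmem a b a).2 ⟨le_rfl, hab⟩)
    have ha1 : 1 ≤ a := by
      by_contra hcon
      have : a = 0 := by omega
      rw [this] at ha
      have := ha.1
      omega
    have haN : a ≤ N := Nat.le_of_mul_le_mul_right ha.2.1 hK
    -- the greatest i ≤ h with d i < a
    obtain ⟨i, hi, hmax⟩ : ∃ i, (i ≤ h ∧ d i < a) ∧ ∀ j, (j ≤ h ∧ d j < a) → j ≤ i := by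
      have hne : ∃ i, i ≤ h ∧ d i < a := ⟨0, by omega, by omega⟩
      refine ⟨Nat.findGreatest (fun i => d i < a) h, ⟨Nat.findGreatest_le h, ?_⟩, ?_⟩
      · exact Nat.findGreatest_spec (P := fun i => d i < a) (m := 0) (by omega) (by
          show d 0 < a
          omega)
      · rintro j ⟨hj1, hj2⟩
        exact Nat.le_findGreatest hj1 hj2
    have hle : a ≤ d (i + 1) := by
      by_contra hcon
      rcases Nat.lt_or_ge i h with hih | hih
      · have := hmax (i + 1) ⟨by omega, by omega⟩
        omega
      · have : i = h := by omega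
        subst this
        omega
    refine ⟨i, hi.1, hi.2, ?_⟩
    by_contra hcon
    have hmem := hfree (d (i + 1) * K) ((mulmem a b (d (i + 1))).2 ⟨hle, by omega⟩)
    apply hmem.2.2
    refine (hA (d (i + 1)) (by omega) ?_).2 ⟨i + 1, by omega, by omega, rfl⟩
    rw [← dN]
    exact mono (i + 1) (h + 1) (by omega) le_rfl
  have isFree : ∀ i, i ≤ h → ∃ a b : ℕ, a ≤ b ∧
      runSet K d i = {x | ∃ m : ℕ, a ≤ m ∧ m ≤ b ∧ x = m * K} ∧
        ∀ x ∈ runSet K d i, K ≤ x ∧ x ≤ N * K ∧ x ∉ A := by
    intro i hi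
    refine ⟨d i + 1, d (i + 1) - 1, ?_, rfl, free i hi⟩
    have := dstep i hi
    omega
  have key : {S : Set ℕ | Maximal (fun S : Set ℕ => ∃ a b : ℕ, a ≤ b ∧
        S = {x | ∃ m : ℕ, a ≤ m ∧ m ≤ b ∧ x = m * K} ∧
        ∀ x ∈ S, K ≤ x ∧ x ≤ N * K ∧ x ∉ A) S} =
      ((Finset.range (h + 1)).image (runSet K d) : Finset (Set ℕ)) := by
    ext S
    simp only [Set.mem_ofPred_eq, Finset.coe_image, Set.mem_image, Finset.coe_range, Set.mem_Iio]
    constructor
    · rintro ⟨⟨a, b, hab, rfl, hfree⟩, hmax⟩
      obtain ⟨i, hi, h1, h2⟩ := inrun a b hab hfree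
      refine ⟨i, by omega, ?_⟩
      have hsub : {x | ∃ m : ℕ, a ≤ m ∧ m ≤ b ∧ x = m * K} ⊆ runSet K d i := by
        rintro x ⟨m, h3, h4, rfl⟩
        exact ⟨m, by omega, by omega, rfl⟩
      exact le_antisymm (hmax (isFree i hi) hsub) hsub
    · rintro ⟨i, hi, rfl⟩
      refine ⟨isFree i (by omega), ?_⟩
      rintro S' ⟨a, b, hab, rfl, hfree⟩ hsub
      obtain ⟨j, hj, h1, h2⟩ := inrun a b hab hfree
      have hstep := dstep i (by omega)
      have hm : (d i + 1) * K ∈ runSet K d i := (runmem i _).2 ⟨le_rfl, by omega⟩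
      have hm2 := (mulmem a b (d i + 1)).1 (hsub hm)
      have hij : i = j := by
        rcases Nat.lt_trichotomy i j with hlt | heq | hgt
        · have := mono (i + 1) j (by omega) (by omega)
          omega
        · exact heq
        · have := mono (j + 1) i (by omega) (by omega)
          omega
      subst hij
      rintro x ⟨m, h3, h4, rfl⟩
      exact ⟨m, by omega, by omega, rfl⟩
  rw [key, Set.ncard_coe_finset, Finset.card_image_of_injOn, Finset.card_range]
  intro i hi j hj hij
  simp only [Finset.coe_range, Set.mem_Iio] at hi hj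
  have hi' := dstep i (by omega)
  have hj' := dstep j (by omega)
  have e1 : (d i + 1) * K ∈ runSet K d j := by
    have : (d i + 1) * K ∈ runSet K d i := (runmem i _).2 ⟨le_rfl, by omega⟩
    have hij2 : runSet K d i = runSet K d j := hij
    rwa [hij2] at this
  have e2 := (runmem j _).1 e1
  rcases Nat.lt_trichotomy i j with hlt | heq | hgt
  · have := mono (i + 1) j (by omega) (by omega)
    omega
  · exact heq
  · have := mono (j + 1) i (by omega) (by omega)
    omega

/-! ### Counting the synchronizing colorings of a digraph with two vertices -/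

theorem not_sync_iff {k : ℕ} (G : OutGraph k 2) (C : Coloring k 2) :
    ¬ Synchronizing G C ↔ ∀ a, step G C 0 a ≠ step G C 1 a := by
  constructor
  · intro h a ha
    apply h
    refine ⟨[a], step G C 0 a, ?_⟩
    intro q
    have hq : q = 0 ∨ q = 1 := by omega
    rcases hq with rfl | rfl
    · rfl
    · exact ha.symm
  · rintro h ⟨w, p, hw⟩
    have key : ∀ (w : List (Fin k)) (x y : Fin 2), x ≠ y →
        w.foldl (step G C) x ≠ w.foldl (step G C) y := by
      intro w
      induction w with
      | nil => intro x y hxy; exact hxy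
      | cons a w ih =>
        intro x y hxy
        apply ih
        have hx : x = 0 ∨ x = 1 := by omega
        have hy : y = 0 ∨ y = 1 := by omega
        rcases hx with rfl | rfl <;> rcases hy with rfl | rfl
        · exact absurd rfl hxy
        · exact h a
        · exact (h a).symm
        · exact absurd rfl hxy
    exact key w 0 1 (by decide) ((hw 0).trans (hw 1).symm)

/-- The number of edges `e` with `f e = 1`. -/
def cnt {k : ℕ} (f : Fin k → Fin 2) : ℕ := Fintype.card {e // f e = 1}

theorem cnt_le {k : ℕ} (f : Fin k → Fin 2) : cnt f ≤ k := by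
  have := Fintype.card_subtype_le (fun e => f e = 1)
  rw [Fintype.card_fin] at this
  exact this

theorem cnt_zero {k : ℕ} (f : Fin k → Fin 2) : Fintype.card {e // f e = 0} = k - cnt f := by
  have h1 : Fintype.card {e // f e = 0} = Fintype.card {e // ¬ f e = 1} := by
    apply Fintype.card_congr
    apply Equiv.subtypeEquivRight
    intro e
    constructor
    · intro h; rw [h]; decide
    · intro h
      have : f e = 0 ∨ f e = 1 := by omega
      rcases this with h2 | h2
      · exact h2
      · exact absurd h2 h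
  rw [h1, Fintype.card_subtype_compl, Fintype.card_fin]
  rfl

theorem card_perm_eq {k : ℕ} (f h : Fin k → Fin 2) :
    Nat.card {ρ : Equiv.Perm (Fin k) // f ∘ ρ = h} =
      if cnt f = cnt h then (cnt f)! * (k - cnt f)! else 0 := by
  classical
  split_ifs with hc
  · -- a permutation carrying one to the other
    have hfib : ∀ c : Fin 2, Nonempty ({a // h a = c} ≃ {b // f b = c}) := by
      intro c
      have hcc : c = 0 ∨ c = 1 := by omega
      rcases hcc with rfl | rfl
      · exact ⟨Fintype.equivOfCardEq (by rw [cnt_zero, cnt_zero, hc])⟩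
      · exact ⟨Fintype.equivOfCardEq hc.symm⟩
    let ρ₀ : Equiv.Perm (Fin k) := Equiv.ofFiberEquiv (fun c => (hfib c).some)
    have hρ₀ : ∀ a, f (ρ₀ a) = h a := fun a => Equiv.ofFiberEquiv_map _ a
    have e : {ρ : Equiv.Perm (Fin k) // f ∘ ρ = h} ≃ {g : Equiv.Perm (Fin k) // f ∘ g = f} := by
      refine ⟨fun ρ => ⟨ρ₀.symm.trans ρ.1, ?_⟩, fun g => ⟨ρ₀.trans g.1, ?_⟩, ?_, ?_⟩
      · funext x
        have h1 := congrFun ρ.2 (ρ₀.symm x)
        simp only [Function.comp_apply, Equiv.trans_apply] at h1 ⊢
        rw [h1, ← hρ₀, Equiv.apply_symm_apply]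
      · funext x
        have h1 := congrFun g.2 (ρ₀ x)
        simp only [Function.comp_apply, Equiv.trans_apply] at h1 ⊢
        rw [h1, hρ₀]
      · intro ρ
        apply Subtype.ext
        ext x
        simp
      · intro g
        apply Subtype.ext
        ext x
        simp
    rw [Nat.card_congr e, Nat.card_eq_fintype_card, DomMulAct.stabilizer_card,
      Fin.prod_univ_two, cnt_zero, mul_comm]
    rfl
  · rw [Nat.card_eq_zero]
    left
    refine ⟨?_⟩
    rintro ⟨ρ, hρ⟩
    apply hc
    unfold cnt
    apply Fintype.card_congr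
    refine (ρ.symm.subtypeEquiv ?_)
    intro a
    have := congrFun hρ (ρ.symm a)
    simp only [Function.comp_apply, Equiv.apply_symm_apply] at this
    rw [this]

theorem nonsync_card {k : ℕ} (G : OutGraph k 2) :
    Nat.card {C : Coloring k 2 // ¬ Synchronizing G C} =
      k ! * Nat.card {ρ : Equiv.Perm (Fin k) // G 0 ∘ ρ = fun e => Fin.rev (G 1 e)} := by
  have hrev : ∀ x y : Fin 2, x ≠ y ↔ x = Fin.rev y := by decide
  have hiff : ∀ C : Coloring k 2, ¬ Synchronizing G C ↔
      G 0 ∘ ((C 1).trans (C 0).symm : Equiv.Perm (Fin k)) = fun e => Fin.rev (G 1 e) := by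
    intro C
    rw [not_sync_iff]
    constructor
    · intro h
      funext e
      have h1 := (hrev _ _).1 (h (C 1 e))
      unfold step at h1
      rw [Equiv.symm_apply_apply] at h1
      exact h1
    · intro h a
      apply (hrev _ _).2
      have h1 := congrFun h ((C 1).symm a)
      simp only [Function.comp_apply, Equiv.trans_apply, Equiv.apply_symm_apply] at h1
      exact h1
  have e : {C : Coloring k 2 // ¬ Synchronizing G C} ≃
      Equiv.Perm (Fin k) ×
        {ρ : Equiv.Perm (Fin k) // G 0 ∘ ρ = fun e => Fin.rev (G 1 e)} := by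
    refine ⟨fun C => (C.1 1, ⟨(C.1 1).trans (C.1 0).symm, (hiff C.1).1 C.2⟩),
      fun p => ⟨fun v => if v = 0 then p.2.1.symm.trans p.1 else p.1, ?_⟩, ?_, ?_⟩
    · rw [hiff]
      funext x
      have := congrFun p.2.2 x
      simp only [Function.comp_apply, Equiv.trans_apply] at this ⊢
      simpa using this
    · intro C
      apply Subtype.ext
      funext v
      have hv : v = 0 ∨ v = 1 := by omega
      rcases hv with rfl | rfl
      · ext x
        simp
      · simp
    · intro p
      apply Prod.ext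
      · simp
      · apply Subtype.ext
        ext x
        simp
  rw [Nat.card_congr e, Nat.card_prod, Nat.card_eq_fintype_card, Fintype.card_perm,
    Fintype.card_fin]

theorem syncCount_add {k : ℕ} (G : OutGraph k 2) :
    syncCount G + k ! * (if cnt (G 0) = cnt (fun e => Fin.rev (G 1 e)) then
      (cnt (G 0))! * (k - cnt (G 0))! else 0) = k ! * k ! := by
  classical
  rw [← card_perm_eq, ← nonsync_card]
  unfold syncCount
  have h1 : Nat.card (Coloring k 2) = k ! * k ! := by
    rw [Nat.card_eq_fintype_card, Fintype.card_pi, Fin.prod_univ_two, Fintype.card_perm,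
      Fintype.card_fin]
  rw [← h1, ← Nat.card_congr (Equiv.sumCompl (fun C : Coloring k 2 => Synchronizing G C)),
    Nat.card_sum]

/-! ### Primitive digraphs with two vertices -/

theorem cnt_pos_of {k : ℕ} (f : Fin k → Fin 2) (h : ∃ e, f e = 1) : 1 ≤ cnt f := by
  obtain ⟨e, he⟩ := h
  exact Fintype.card_pos_iff.2 ⟨⟨e, he⟩⟩

theorem all_of_cnt_eq {k : ℕ} (f : Fin k → Fin 2) (h : cnt f = k) : ∀ e, f e = 1 := by
  intro e
  by_contra hne
  have h1 : Fintype.card {e // f e = 1} < Fintype.card (Fin k) :=
    Fintype.card_subtype_lt (x := e) hne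
  rw [Fintype.card_fin] at h1
  unfold cnt at h
  omega

theorem out_of_prim {k : ℕ} (G : OutGraph k 2) (hG : Primitive G) :
    1 ≤ cnt (G 0) ∧ 1 ≤ cnt (fun e => Fin.rev (G 1 e)) ∧
      ¬ (cnt (G 0) = k ∧ cnt (fun e => Fin.rev (G 1 e)) = k) := by
  have hrev1 : ∀ x : Fin 2, Fin.rev x = 1 ↔ x = 0 := by decide
  refine ⟨?_, ?_, ?_⟩
  · apply cnt_pos_of
    by_contra hno
    obtain ⟨l, hl⟩ := hG.1 0 1
    have key : ∀ l, ¬ Walk G l 0 1 := by
      intro l
      induction l with
      | zero => intro h; exact absurd (show (0 : Fin 2) = 1 from h) (by decide)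
      | succ l ih =>
        rintro ⟨e, he⟩
        have h1 : G 0 e = 0 ∨ G 0 e = 1 := by omega
        rcases h1 with h1 | h1
        · rw [h1] at he
          exact ih he
        · exact hno ⟨e, h1⟩
    exact key l hl
  · apply cnt_pos_of
    by_contra hno
    obtain ⟨l, hl⟩ := hG.1 1 0
    have key : ∀ l, ¬ Walk G l 1 0 := by
      intro l
      induction l with
      | zero => intro h; exact absurd (show (1 : Fin 2) = 0 from h) (by decide)
      | succ l ih =>
        rintro ⟨e, he⟩
        have h1 : G 1 e = 0 ∨ G 1 e = 1 := by omega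
        rcases h1 with h1 | h1
        · exact hno ⟨e, (hrev1 _).2 h1⟩
        · rw [h1] at he
          exact ih he
    exact key l hl
  · rintro ⟨h0, h1⟩
    have a0 := all_of_cnt_eq _ h0
    have a1 : ∀ e, G 1 e = 0 := fun e => (hrev1 _).1 (all_of_cnt_eq _ h1 e)
    have key : ∀ l (u v : Fin 2), Walk G l u v → (2 ∣ l ↔ u = v) := by
      intro l
      induction l with
      | zero =>
        intro u v h
        have h' : u = v := h
        simp [h']
      | succ l ih =>
        rintro u v ⟨e, he⟩
        have hu : u = 0 ∨ u = 1 := by omega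
        have hv : v = 0 ∨ v = 1 := by omega
        rcases hu with rfl | rfl
        · rw [a0] at he
          have h2 := ih 1 v he
          rcases hv with rfl | rfl
          · have h3 : ¬ 2 ∣ l := fun h => absurd (h2.1 h) (by decide)
            constructor
            · intro _; rfl
            · intro _; omega
          · have h3 : 2 ∣ l := h2.2 rfl
            constructor
            · intro _; omega
            · intro h; exact absurd h (by decide)
        · rw [a1] at he
          have h2 := ih 0 v he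
          rcases hv with rfl | rfl
          · have h3 : 2 ∣ l := h2.2 rfl
            constructor
            · intro _; omega
            · intro h; exact absurd h (by decide)
          · have h3 : ¬ 2 ∣ l := fun h => absurd (h2.1 h) (by decide)
            constructor
            · intro _; rfl
            · intro _; omega
    have := hG.2 2 (fun v l _ h => (key l v v h).2 rfl)
    omega

/-- The digraph with `i` edges from `0` to `1` and `j` edges from `1` to `0`, all other edges
being loops. -/
def graph (k i j : ℕ) : OutGraph k 2 := fun v e =>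
  if v = 0 then (if e.val < i then 1 else 0) else (if e.val < j then 0 else 1)

theorem cnt_threshold (k i : ℕ) (hi : i ≤ k) :
    cnt (fun e : Fin k => if e.val < i then (1 : Fin 2) else 0) = i := by
  unfold cnt
  have e : {e : Fin k // (if e.val < i then (1 : Fin 2) else 0) = 1} ≃ Fin i := by
    refine ⟨fun e => ⟨e.1.val, ?_⟩, fun e => ⟨⟨e.val, by omega⟩, ?_⟩, ?_, ?_⟩
    · have := e.2
      by_contra hcon
      rw [if_neg hcon] at this
      exact absurd this (by decide)
    · simp
    · intro e; rfl
    · intro e; rfl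
  rw [Fintype.card_congr e, Fintype.card_fin]

theorem cnt_graph (k i j : ℕ) (hi : i ≤ k) (hj : j ≤ k) :
    cnt (graph k i j 0) = i ∧ cnt (fun e => Fin.rev (graph k i j 1 e)) = j := by
  constructor
  · exact cnt_threshold k i hi
  · have : (fun e => Fin.rev (graph k i j 1 e)) =
        fun e : Fin k => if e.val < j then (1 : Fin 2) else 0 := by
      funext e
      unfold graph
      rw [if_neg (by decide)]
      split_ifs <;> rfl
    rw [this]
    exact cnt_threshold k j hj

theorem graph_prim (k i j : ℕ) (hi : 1 ≤ i) (hik : i < k) (hj : 1 ≤ j) :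
    Primitive (graph k i j) := by
  have w01 : Walk (graph k i j) 1 0 1 := by
    refine ⟨⟨0, by omega⟩, ?_⟩
    show graph k i j 0 ⟨0, _⟩ = 1
    unfold graph
    rw [if_pos rfl, if_pos (by show 0 < i; omega)]
  have w10 : Walk (graph k i j) 1 1 0 := by
    refine ⟨⟨0, by omega⟩, ?_⟩
    show graph k i j 1 ⟨0, _⟩ = 0
    unfold graph
    rw [if_neg (by decide), if_pos (by show 0 < j; omega)]
  have w00 : Walk (graph k i j) 1 0 0 := by
    refine ⟨⟨i, hik⟩, ?_⟩
    show graph k i j 0 ⟨i, _⟩ = 0
    unfold graph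
    rw [if_pos rfl, if_neg (by show ¬ i < i; omega)]
  constructor
  · intro u v
    have hu : u = 0 ∨ u = 1 := by omega
    have hv : v = 0 ∨ v = 1 := by omega
    rcases hu with rfl | rfl <;> rcases hv with rfl | rfl
    · exact ⟨0, rfl⟩
    · exact ⟨1, w01⟩
    · exact ⟨1, w10⟩
    · exact ⟨0, rfl⟩
  · intro d hd
    exact Nat.dvd_one.1 (hd 0 1 one_pos w00)

/-! ### The values -/

/-- `0` for `i = 0`, then the numbers `k! - i! (k - i)!` for `1 ≤ i ≤ ⌊k/2⌋`, then `k!`. -/
def val (k i : ℕ) : ℕ :=
  if i = 0 then 0 else if i ≤ k / 2 then (k !) - i ! * (k - i)! else k !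

theorem fac_le (k i : ℕ) (h : i ≤ k) : i ! * (k - i)! ≤ k ! :=
  Nat.le_of_dvd (Nat.factorial_pos k) (Nat.factorial_mul_factorial_dvd_factorial h)

theorem val_step (k : ℕ) (hk : 3 ≤ k) (i : ℕ) (hi : i ≤ k / 2) : val k i + 2 ≤ val k (i + 1) := by
  unfold val
  rcases Nat.eq_zero_or_pos i with h0 | h0
  · subst h0
    rw [if_pos rfl, if_neg (by omega), if_pos (by omega)]
    obtain ⟨m, rfl⟩ : ∃ m, k = m + 1 := ⟨k - 1, by omega⟩
    have h1 : (m + 1)! = (m + 1) * m ! := Nat.factorial_succ m
    have h2 : 1 ≤ m ! := Nat.factorial_pos m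
    have h3 : 0 + 1 = 1 := rfl
    rw [h3, Nat.factorial_one, one_mul, Nat.add_sub_cancel, h1]
    have h4 : (m + 1) * m ! = m * m ! + m ! := by ring
    have h5 : 2 * 1 ≤ m * m ! := Nat.mul_le_mul (by omega) h2
    omega
  · rw [if_neg (by omega), if_pos hi, if_neg (by omega)]
    have hle := fac_le k i (by omega)
    by_cases hi2 : i + 1 ≤ k / 2
    · rw [if_pos hi2]
      have hle2 := fac_le k (i + 1) (by omega)
      have h1 : (k - i)! = (k - i) * (k - (i + 1))! := by
        have : k - i = (k - (i + 1)) + 1 := by omega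
        rw [this, Nat.factorial_succ]
      have h2 : (i + 1)! = (i + 1) * i ! := Nat.factorial_succ i
      have h3 : 1 ≤ i ! := Nat.factorial_pos i
      have h4 : 2 ≤ (k - (i + 1))! := by
        calc 2 = 2 ! := rfl
          _ ≤ (k - (i + 1))! := Nat.factorial_le (by omega)
      have h5 : i ! * (k - i)! = (k - i) * (i ! * (k - (i + 1))!) := by
        rw [h1]; ring
      have h6 : (i + 1)! * (k - (i + 1))! = (i + 1) * (i ! * (k - (i + 1))!) := by
        rw [h2]; ring
      have h7 : 1 * 2 ≤ i ! * (k - (i + 1))! := Nat.mul_le_mul h3 h4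
      have h8 : (i + 1) * (i ! * (k - (i + 1))!) + 1 * (i ! * (k - (i + 1))!) ≤
          (k - i) * (i ! * (k - (i + 1))!) := by
        rw [← add_mul]
        exact Nat.mul_le_mul_right _ (by omega)
      omega
    · rw [if_neg hi2]
      have h3 : 1 ≤ i ! := Nat.factorial_pos i
      have h4 : 2 ≤ (k - i)! := by
        calc 2 = 2 ! := rfl
          _ ≤ (k - i)! := Nat.factorial_le (by omega)
      have h7 : 1 * 2 ≤ i ! * (k - i)! := Nat.mul_le_mul h3 h4
      omega

theorem mem_valueSet_iff (k : ℕ) (hk : 3 ≤ k) (m : ℕ) :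
    m * k ! ∈ valueSet k 2 ↔ ∃ i, 1 ≤ i ∧ i ≤ k / 2 + 1 ∧ m = val k i := by
  have hK : 0 < k ! := Nat.factorial_pos k
  constructor
  · rintro ⟨G, hG, hs⟩
    obtain ⟨h1, h2, h3⟩ := out_of_prim G hG
    have h4 := syncCount_add G
    have hle := cnt_le (G 0)
    set i := cnt (G 0) with hi
    set j := cnt (fun e => Fin.rev (G 1 e)) with hj
    rw [hs] at h4
    by_cases hij : i = j
    · rw [if_pos hij] at h4
      have hik : i < k := by
        by_contra hcon
        exact h3 ⟨by omega, by omega⟩
      have h5 : m + i ! * (k - i)! = k ! := by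
        apply Nat.eq_of_mul_eq_mul_right hK
        rw [add_mul, ← h4]
        ring
      rcases Nat.lt_or_ge (k / 2) i with hlt | hge
      · refine ⟨k - i, by omega, by omega, ?_⟩
        unfold val
        rw [if_neg (by omega), if_pos (by omega)]
        have : k - (k - i) = i := by omega
        rw [this, mul_comm]
        omega
      · refine ⟨i, by omega, by omega, ?_⟩
        unfold val
        rw [if_neg (by omega), if_pos (by omega)]
        omega
    · rw [if_neg hij, mul_zero, add_zero] at h4
      refine ⟨k / 2 + 1, by omega, le_rfl, ?_⟩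
      unfold val
      rw [if_neg (by omega), if_neg (by omega)]
      exact Nat.eq_of_mul_eq_mul_right hK h4
  · rintro ⟨i, h1, h2, rfl⟩
    rcases Nat.lt_or_ge (k / 2) i with hlt | hge
    · refine ⟨graph k 1 2, graph_prim k 1 2 le_rfl (by omega) (by omega), ?_⟩
      have h4 := syncCount_add (graph k 1 2)
      obtain ⟨c1, c2⟩ := cnt_graph k 1 2 (by omega) (by omega)
      rw [c1, c2, if_neg (by omega), mul_zero, add_zero] at h4
      rw [h4]
      unfold val
      rw [if_neg (by omega), if_neg (by omega)]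
    · refine ⟨graph k i i, graph_prim k i i h1 (by omega) h1, ?_⟩
      have h4 := syncCount_add (graph k i i)
      obtain ⟨c1, c2⟩ := cnt_graph k i i (by omega) (by omega)
      rw [c1, c2, if_pos rfl] at h4
      have hle := fac_le k i (by omega)
      unfold val
      rw [if_neg (by omega), if_pos hge, Nat.sub_mul]
      have h5 : k ! * (i ! * (k - i)!) = i ! * (k - i)! * k ! := by ring
      omega

/-- **Main theorem.** For every `k ≥ 3` there are exactly `⌊k/2⌋ + 1` gaps for `(k, 2)`. -/
theorem result (k : ℕ) (hk : 3 ≤ k) : {S : Set ℕ | IsGap k 2 S}.ncard = k / 2 + 1 := by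
  have hK : 0 < k ! := Nat.factorial_pos k
  have h := gaps_count (k !) (k !) (k / 2) hK (val k) (valueSet k 2) (by unfold val; simp)
    (fun i hi => val_step k hk i hi)
    (by unfold val; rw [if_neg (by omega), if_neg (by omega)])
    (fun m _ _ => mem_valueSet_iff k hk m)
  have hsq : (k !) ^ 2 = k ! * k ! := sq _
  unfold IsGap FreeRun
  rw [hsq]
  exact h

end Pool.Agent.Results.MP_4d0a8c_lc.TwoStates
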